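import Pool.Agent.BoltzM.Geo.Sphere

/-! A rotation invariant finite measure is determined by its radial law; the formula of
Blaschke and Petkantschin for hyperplanes through the origin. -/

set_option autoImplicit false

open MeasureTheory Set Metric
open scoped ENNReal RealInnerProductSpace

namespace Pool.Agent.BoltzM.Geo

open Coll

variable [Dim]

/-- Spherical mean of a plane wave. -/
noncomputable def wave (t : ℝ) : ℂ :=
  ∫ om : S2, Complex.exp (((t * ⟪ee 0, (om : E)⟫ : ℝ) : ℂ) * Complex.I) ∂sph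

lemma continuous_wave : Continuous wave := by
  refine continuous_of_dominated (bound := fun _ => 1) ?_ ?_ (integrable_const _) ?_
  · intro t
    exact Continuous.aestronglyMeasurable (by fun_prop)
  · intro t
    exact Filter.Eventually.of_forall fun om => (Complex.norm_exp_ofReal_mul_I _).le
  · exact Filter.Eventually.of_forall fun om => by fun_prop

lemma wave_eq (x : E) (c : ℝ) :
    ∫ om : S2, Complex.exp (((⟪x, c • (om : E)⟫ : ℝ) : ℂ) * Complex.I) ∂sph = wave (c * ‖x‖) := by
  obtain ⟨R, hR⟩ := exists_rot (a := ‖x‖ • ee 0) (b := x) (by simp [norm_smul, norm_ee])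
  have h := (measurePreserving_sphMap R).integral_comp' (f := Homeomorph.toMeasurableEquiv
    { toFun := sphMap R, invFun := sphMap R.symm, left_inv := fun om => Subtype.ext (by simp),
      right_inv := fun om => Subtype.ext (by simp), continuous_toFun := continuous_sphMap R,
      continuous_invFun := continuous_sphMap R.symm })
    (fun om : S2 => Complex.exp (((⟪x, c • (om : E)⟫ : ℝ) : ℂ) * Complex.I))
  rw [← h, wave]
  refine integral_congr_ae (Filter.Eventually.of_forall fun om => ?_)
  have : ⟪x, c • (R (om : E))⟫ = c * ‖x‖ * ⟪ee 0, (om : E)⟫ := by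
    rw [inner_smul_right]
    conv_lhs => rw [← hR]
    rw [R.inner_map_map, inner_smul_left]
    simp [mul_assoc]
  show Complex.exp (((⟪x, c • (R (om : E))⟫ : ℝ) : ℂ) * Complex.I) = _
  rw [this]

lemma charFun_radial (μ : Measure E) [IsFiniteMeasure μ]
    (hμ : ∀ R : E ≃ₗᵢ[ℝ] E, MeasurePreserving R μ μ) (ξ : E) :
    (sph.real univ : ℂ) * charFun μ ξ = ∫ r, wave (‖ξ‖ * r) ∂(μ.map norm) := by
  have h1 : ∀ om : S2, charFun μ (‖ξ‖ • (om : E)) = charFun μ ξ := by
    intro om
    obtain ⟨R, hR⟩ := exists_rot (a := ξ) (b := ‖ξ‖ • (om : E)) (by simp [norm_smul])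
    rw [charFun_apply, charFun_apply, ← hR, ← (hμ R).integral_comp R.toHomeomorph.measurableEmbedding]
    simp only [R.inner_map_map]
  have h2 : ∫ om : S2, charFun μ (‖ξ‖ • (om : E)) ∂sph = (sph.real univ : ℂ) * charFun μ ξ := by
    simp only [h1, integral_const, Complex.real_smul]
  have hc : Continuous (fun r : ℝ => wave (‖ξ‖ * r)) := continuous_wave.comp (by fun_prop)
  rw [← h2, integral_map measurable_norm.aemeasurable hc.aestronglyMeasurable]
  simp only [charFun_apply]
  rw [integral_integral_swap]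
  · exact integral_congr_ae (Filter.Eventually.of_forall fun x => wave_eq x _)
  · refine (integrable_const (1 : ℝ)).mono' (Continuous.aestronglyMeasurable ?_)
      (Filter.Eventually.of_forall fun p => (Complex.norm_exp_ofReal_mul_I _).le)
    unfold Function.uncurry
    fun_prop

lemma inv_ext (μ ν : Measure E) [IsFiniteMeasure μ] [IsFiniteMeasure ν]
    (hμ : ∀ R : E ≃ₗᵢ[ℝ] E, MeasurePreserving R μ μ)
    (hν : ∀ R : E ≃ₗᵢ[ℝ] E, MeasurePreserving R ν ν) (h : μ.map norm = ν.map norm) : μ = ν := by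
  refine Measure.ext_of_charFun (funext fun ξ => ?_)
  have h0 : (sph.real univ : ℂ) ≠ 0 := by
    have : sph univ ≠ 0 := by
      rw [Ne, Measure.measure_univ_eq_zero]
      exact Measure.toSphere_ne_zero _
    simp only [measureReal_def, ne_eq, Complex.ofReal_eq_zero, ENNReal.toReal_eq_zero_iff, not_or]
    exact ⟨this, measure_ne_top _ _⟩
  apply mul_left_cancel₀ h0
  rw [charFun_radial μ hμ, charFun_radial ν hν, h]

omit [Dim] in
/-- Indicator of the unit interval. -/
noncomputable def slab (t : ℝ) : ℝ≥0∞ := (Icc (0 : ℝ) 1).indicator 1 t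

omit [Dim] in
lemma measurable_slab : Measurable slab := measurable_one.indicator measurableSet_Icc

omit [Dim] in
lemma lint_slab : ∫⁻ t, slab t = 1 := by
  unfold slab
  rw [lintegral_indicator measurableSet_Icc]
  simp

lemma measurable_perp2 : Measurable (fun p : S2 × E => perp (p.1 : E) p.2) := by
  unfold perp; fun_prop

lemma perp_map (R : E ≃ₗᵢ[ℝ] E) (om u : E) : perp (R om) (R u) = R (perp om u) := by
  simp [perp]

lemma lint_exp_lt_top :
    ∫⁻ r in Ioi (0 : ℝ), ENNReal.ofReal (cS * r ^ (dd - 2)) * ENNReal.ofReal (Real.exp (-r)) < ⊤ := by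
  have hd := two_le_dd
  have hc := cS_pos
  have h := (Real.GammaIntegral_convergent (s := (dd - 2 : ℕ) + 1) (by positivity)).const_mul cS
  refine lt_of_le_of_lt (le_of_eq ?_) h.lintegral_lt_top
  refine setLIntegral_congr_fun measurableSet_Ioi fun r hr => ?_
  have hr' : 0 < r := hr
  rw [← ENNReal.ofReal_mul (by positivity)]
  congr 1
  rw [add_sub_cancel_right, Real.rpow_natCast]
  ring

lemma bp_base (F : E → ℝ≥0∞) (hF : Measurable F) :
    ∫⁻ om : S2, (∫⁻ u : E, slab ⟪u, (om : E)⟫ * F (perp om u)) ∂sph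
      = ∫⁻ w : E, ENNReal.ofReal (cS / ‖w‖) * F w := by
  set k : ℝ → ℝ≥0∞ := fun r => ENNReal.ofReal (Real.exp (-r)) with hk
  have hkm : Measurable k := by fun_prop
  set d1 : S2 × E → ℝ≥0∞ := fun p => slab ⟪p.2, (p.1 : E)⟫ * k ‖perp (p.1 : E) p.2‖ with hd1
  have hd1m : Measurable d1 :=
    (measurable_slab.comp (by fun_prop)).mul (hkm.comp measurable_perp2.norm)
  set μ : Measure E := ((sph.prod volume).withDensity d1).map
    (fun p : S2 × E => perp (p.1 : E) p.2) with hμ
  set d2 : E → ℝ≥0∞ := fun w => ENNReal.ofReal (cS / ‖w‖) * k ‖w‖ with hd2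
  have hd2m : Measurable d2 := Measurable.mul (by fun_prop) (hkm.comp measurable_norm)
  set ν : Measure E := volume.withDensity d2 with hν
  have hμl : ∀ G : E → ℝ≥0∞, Measurable G →
      ∫⁻ w, G w ∂μ = ∫⁻ p, d1 p * G (perp (p.1 : E) p.2) ∂(sph.prod volume) := by
    intro G hG
    rw [hμ, lintegral_map hG measurable_perp2]
    exact lintegral_withDensity_eq_lintegral_mul _ hd1m (hG.comp measurable_perp2)
  have hνl : ∀ G : E → ℝ≥0∞, Measurable G → ∫⁻ w, G w ∂ν = ∫⁻ w, d2 w * G w := fun G hG =>
    lintegral_withDensity_eq_lintegral_mul _ hd2m hG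
  have hμr : ∀ T : ℝ → ℝ≥0∞, Measurable T → ∫⁻ w, T ‖w‖ ∂μ
      = (∫⁻ r in Ioi (0 : ℝ), ENNReal.ofReal (cS * r ^ (dd - 2)) * (k r * T r)) * sph univ := by
    intro T hT
    have hTn : Measurable (fun w : E => T ‖w‖) := hT.comp measurable_norm
    have hm : Measurable (fun p : S2 × E => d1 p * T ‖perp (p.1 : E) p.2‖) :=
      hd1m.mul (hTn.comp measurable_perp2)
    rw [hμl _ hTn, lintegral_prod _ hm.aemeasurable, ← lintegral_const]
    refine lintegral_congr fun om => ?_
    have hΦ : Measurable (Function.uncurry fun t r : ℝ => slab t * (k r * T r)) :=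
      (measurable_slab.comp measurable_fst).mul ((hkm.mul hT).comp measurable_snd)
    have h1 := cyl (norm_coe om) _ hΦ
    simp only [hd1, mul_assoc] at h1 ⊢
    rw [h1]
    have hm2 : Measurable (fun r : ℝ => ENNReal.ofReal (cS * r ^ (dd - 2)) * (k r * T r)) :=
      Measurable.mul (by fun_prop) (hkm.mul hT)
    have h2 : ∀ t : ℝ, ∫⁻ r in Ioi (0 : ℝ), ENNReal.ofReal (cS * r ^ (dd - 2)) * (slab t * (k r * T r))
        = slab t * ∫⁻ r in Ioi (0 : ℝ), ENNReal.ofReal (cS * r ^ (dd - 2)) * (k r * T r) := by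
      intro t
      rw [← lintegral_const_mul _ hm2]
      exact lintegral_congr fun r => by ring
    simp only [h2]
    rw [lintegral_mul_const _ measurable_slab, lint_slab, one_mul]
  have hνr : ∀ T : ℝ → ℝ≥0∞, Measurable T → ∫⁻ w, T ‖w‖ ∂ν
      = (∫⁻ r in Ioi (0 : ℝ), ENNReal.ofReal (cS * r ^ (dd - 2)) * (k r * T r)) * sph univ := by
    intro T hT
    have hTn : Measurable (fun w : E => T ‖w‖) := hT.comp measurable_norm
    have hm : Measurable (fun w : E => d2 w * T ‖w‖) := hd2m.mul hTn
    rw [hνl _ hTn, lintegral_polar _ hm, ← lintegral_const]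
    refine lintegral_congr fun om => ?_
    refine setLIntegral_congr_fun measurableSet_Ioi fun r hr => ?_
    have hr' : 0 < r := hr
    simp only [hd2, norm_smul, norm_coe, mul_one, Real.norm_eq_abs, abs_of_pos hr']
    rw [← mul_assoc, ← mul_assoc, ← ENNReal.ofReal_mul (by positivity), mul_assoc,
      show dd - 1 = dd - 2 + 1 by have := two_le_dd; omega, pow_succ]
    congr 2
    field_simp
  have hfin : (∫⁻ r in Ioi (0 : ℝ), ENNReal.ofReal (cS * r ^ (dd - 2)) * (k r * 1)) * sph univ < ⊤ := by
    simp only [mul_one]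
    exact ENNReal.mul_lt_top lint_exp_lt_top (measure_lt_top _ _)
  have : IsFiniteMeasure μ := ⟨by
    have := hμr (fun _ => 1) measurable_const
    rw [lintegral_one] at this
    rw [this]; exact hfin⟩
  have : IsFiniteMeasure ν := ⟨by
    have := hνr (fun _ => 1) measurable_const
    rw [lintegral_one] at this
    rw [this]; exact hfin⟩
  have heq : μ = ν := by
    refine inv_ext μ ν (fun R => ⟨R.continuous.measurable, ?_⟩)
      (fun R => ⟨R.continuous.measurable, ?_⟩) ?_
    · refine Measure.ext_of_lintegral _ fun G hG => ?_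
      have hGR : Measurable (fun w => G (R w)) := hG.comp R.continuous.measurable
      rw [lintegral_map hG R.continuous.measurable, hμl _ hGR, hμl _ hG]
      have hmp := (measurePreserving_sphMap R).prod R.measurePreserving
      have hm : Measurable (fun p : S2 × E => d1 p * G (perp (p.1 : E) p.2)) :=
        hd1m.mul (hG.comp measurable_perp2)
      rw [← hmp.lintegral_comp hm]
      refine lintegral_congr fun p => ?_
      simp only [hd1, Prod.map_fst, Prod.map_snd, coe_sphMap, perp_map, R.inner_map_map,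
        R.norm_map]
    · refine Measure.ext_of_lintegral _ fun G hG => ?_
      have hGR : Measurable (fun w => G (R w)) := hG.comp R.continuous.measurable
      have hm : Measurable (fun w => d2 w * G w) := hd2m.mul hG
      rw [lintegral_map hG R.continuous.measurable, hνl _ hGR, hνl _ hG,
        ← R.measurePreserving.lintegral_comp hm]
      refine lintegral_congr fun w => ?_
      simp only [hd2, R.norm_map]
    · refine Measure.ext_of_lintegral _ fun T hT => ?_
      rw [lintegral_map hT measurable_norm, lintegral_map hT measurable_norm, hμr T hT, hνr T hT]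
  have hG : Measurable (fun w : E => ENNReal.ofReal (Real.exp ‖w‖) * F w) :=
    Measurable.mul (by fun_prop) hF
  have hkk : ∀ r : ℝ, k r * ENNReal.ofReal (Real.exp r) = 1 := by
    intro r
    rw [hk, ← ENNReal.ofReal_mul (Real.exp_pos _).le, ← Real.exp_add]
    simp
  have h1 := hμl _ hG
  rw [heq, hνl _ hG] at h1
  have hm : Measurable (fun p : S2 × E => slab ⟪p.2, (p.1 : E)⟫ * F (perp (p.1 : E) p.2)) :=
    (measurable_slab.comp (by fun_prop)).mul (hF.comp measurable_perp2)
  rw [← lintegral_prod _ hm.aemeasurable]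
  calc ∫⁻ p : S2 × E, slab ⟪p.2, (p.1 : E)⟫ * F (perp (p.1 : E) p.2) ∂(sph.prod volume)
      = ∫⁻ p : S2 × E, d1 p * (ENNReal.ofReal (Real.exp ‖perp (p.1 : E) p.2‖)
          * F (perp (p.1 : E) p.2)) ∂(sph.prod volume) := by
        refine lintegral_congr fun p => ?_
        simp only [hd1]
        rw [mul_assoc, ← mul_assoc (k _), hkk, one_mul]
    _ = _ := by
        rw [← h1]
        refine lintegral_congr fun w => ?_
        simp only [hd2]
        rw [mul_assoc, ← mul_assoc (k _), hkk, one_mul]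

lemma slab_split {om : E} (h : ‖om‖ = 1) (Φ : ℝ → E → ℝ≥0∞)
    (hΦ : Measurable (Function.uncurry Φ)) :
    ∫⁻ u : E, Φ ⟪u, om⟫ (perp om u) = ∫⁻ t : ℝ, ∫⁻ u : E, slab ⟪u, om⟫ * Φ t (perp om u) := by
  obtain ⟨ι, h0, -, hmp⟩ := exists_slice om h
  have hp : Measurable (fun u : E => perp om u) := by unfold perp; fun_prop
  have hi : Measurable (fun u : E => ⟪u, om⟫) := by fun_prop
  have hm : Measurable (fun u : E => Φ ⟪u, om⟫ (perp om u)) := hΦ.comp (hi.prodMk hp)
  rw [lintegral_slice hmp _ hm]
  refine lintegral_congr fun t => ?_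
  have hΦt : Measurable (Φ t) := hΦ.comp measurable_prodMk_left
  have hm2 : Measurable (fun u : E => slab ⟪u, om⟫ * Φ t (perp om u)) :=
    (measurable_slab.comp hi).mul (hΦt.comp hp)
  rw [lintegral_slice hmp _ hm2]
  simp only [inner_coords h h0, perp_coords h h0]
  have hm3 : Measurable (fun y : E2 => Φ t (ι y)) := hΦt.comp ι.continuous.measurable
  simp only [lintegral_const_mul _ hm3]
  rw [lintegral_mul_const _ measurable_slab, lint_slab, one_mul]

/-- The formula of Blaschke and Petkantschin. -/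
lemma bp (Φ : ℝ → E → ℝ≥0∞) (hΦ : Measurable (Function.uncurry Φ)) :
    ∫⁻ om : S2, (∫⁻ u : E, Φ ⟪u, (om : E)⟫ (perp om u)) ∂sph
      = ∫⁻ w : E, ENNReal.ofReal (cS / ‖w‖) * ∫⁻ t : ℝ, Φ t w := by
  simp only [fun om : S2 => slab_split (norm_coe om) Φ hΦ]
  have hm : Measurable (fun q : (S2 × ℝ) × E =>
      slab ⟪q.2, (q.1.1 : E)⟫ * Φ q.1.2 (perp (q.1.1 : E) q.2)) := by
    refine (measurable_slab.comp (by fun_prop)).mul (hΦ.comp (Measurable.prodMk (by fun_prop) ?_))
    fun_prop
  rw [lintegral_lintegral_swap hm.lintegral_prod_right'.aemeasurable]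
  have h1 : ∀ t : ℝ, ∫⁻ om : S2, (∫⁻ u : E, slab ⟪u, (om : E)⟫ * Φ t (perp om u)) ∂sph
      = ∫⁻ w : E, ENNReal.ofReal (cS / ‖w‖) * Φ t w := fun t =>
    bp_base (Φ t) (hΦ.comp measurable_prodMk_left)
  simp only [h1]
  have hm2 : Measurable (Function.uncurry fun (t : ℝ) (w : E) =>
      ENNReal.ofReal (cS / ‖w‖) * Φ t w) :=
    Measurable.mul (by fun_prop) hΦ
  rw [lintegral_lintegral_swap hm2.aemeasurable]
  refine lintegral_congr fun w => ?_
  exact lintegral_const_mul _ (hΦ.comp measurable_prodMk_right)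

end Pool.Agent.BoltzM.Geo
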