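import Pool.Agent.BoltzM.Coll.Geom

/-! Integral geometry: rotations and cylinder coordinates. -/

set_option autoImplicit false

open MeasureTheory Set Metric
open scoped ENNReal RealInnerProductSpace Pointwise

namespace Pool.Agent.BoltzM.Geo

open Coll

variable [Dim]

lemma exists_rot {a b : E} (h : ‖a‖ = ‖b‖) : ∃ R : E ≃ₗᵢ[ℝ] E, R a = b :=
  ⟨_, Submodule.reflection_sub h⟩

@[simp] lemma coe_sphMap (R : E ≃ₗᵢ[ℝ] E) (om : S2) : (sphMap R om : E) = R om := rfl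

lemma continuous_sphMap (R : E ≃ₗᵢ[ℝ] E) : Continuous (sphMap R) :=
  Continuous.subtype_mk (R.continuous.comp continuous_subtype_val) _

/-- The standard basis vectors. -/
noncomputable def ee (i : Ix) : E := EuclideanSpace.single i 1

lemma norm_ee (i : Ix) : ‖ee i‖ = 1 := by simp [ee]

/-- The component orthogonal to `om`. -/
noncomputable def perp (om u : E) : E := u - ⟪u, om⟫ • om

lemma continuous_perp : Continuous (fun p : E × E => perp p.1 p.2) := by
  unfold perp; fun_prop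

lemma inner_coords {om : E} (h : ‖om‖ = 1) {ι : E2 →ₗᵢ[ℝ] E} (h0 : ∀ y, ⟪om, ι y⟫ = 0)
    (x : ℝ) (y : E2) : ⟪x • om + ι y, om⟫ = x := by
  rw [real_inner_comm, inner_slice h h0]

lemma perp_coords {om : E} (h : ‖om‖ = 1) {ι : E2 →ₗᵢ[ℝ] E} (h0 : ∀ y, ⟪om, ι y⟫ = 0)
    (x : ℝ) (y : E2) : perp om (x • om + ι y) = ι y := by
  rw [perp, inner_coords h h0]; abel

lemma norm_sq_eq_perp {om : E} (h : ‖om‖ = 1) (u : E) :
    ‖u‖ ^ 2 = ⟪u, om⟫ ^ 2 + ‖perp om u‖ ^ 2 := by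
  rw [perp, norm_sub_sq_real, inner_smul_right, norm_smul, h]
  simp only [Real.norm_eq_abs, mul_one, sq_abs]
  ring

/-- Cylinder coordinates around a unit vector. -/
lemma cyl {om : E} (h : ‖om‖ = 1) (Φ : ℝ → ℝ → ℝ≥0∞) (hΦ : Measurable (Function.uncurry Φ)) :
    ∫⁻ u : E, Φ ⟪u, om⟫ ‖perp om u‖
      = ∫⁻ t : ℝ, ∫⁻ r in Ioi (0 : ℝ), ENNReal.ofReal (cS * r ^ (dd - 2)) * Φ t r := by
  obtain ⟨ι, h0, -, hmp⟩ := exists_slice om h
  have hm : Measurable (fun u : E => Φ ⟪u, om⟫ ‖perp om u‖) := by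
    have : Measurable (fun u : E => ((⟪u, om⟫, ‖perp om u‖) : ℝ × ℝ)) := by
      unfold perp; fun_prop
    exact hΦ.comp this
  rw [lintegral_slice hmp _ hm]
  refine lintegral_congr fun t => ?_
  have hΦt : Measurable (Φ t) := hΦ.comp measurable_prodMk_left
  simp only [inner_coords h h0, perp_coords h h0, ι.norm_map, ENNReal.ofReal_mul cS_pos.le,
    mul_assoc]
  rw [lintegral_radial2 (Φ t) hΦt, lintegral_const_mul' _ _ ENNReal.ofReal_ne_top]

end Pool.Agent.BoltzM.Geo
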